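import Pool.Agent.Helper35.HG.StA

set_option autoImplicit false

/-!
# Project HG, module GRA: the gradient terms
-/

namespace Helper48.HG

open Helper35.HG Helper35.HC Helper35.HSF Helper35.MS Helper35.PI Helper35.PI2 Helper32.CL
open scoped BigOperators

section

variable {n N : ℕ}

/-- T3 for the scalar tensor -/
theorem t3s (hT3 : StT3) (T : Fin n → Fin n → Fin n → EE N) (hT : Sym3V T) (ν : EE N)
    (hν : ‖ν‖ = 1) : 3 / ((n : ℝ) + 2) * eqn T ν ≤ tqn T ν := by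
  have h := hT3 n N (fun i j k => (inner ℝ (T i j k) ν : ℝ) • ν)
    ⟨fun i j k => by show _ • ν = _ • ν; rw [hT.1 i j k],
      fun i j k => by show _ • ν = _ • ν; rw [hT.2 i j k]⟩
  have e1 : ∀ k, ‖et (fun i j k => (inner ℝ (T i j k) ν : ℝ) • ν) k‖ ^ 2
      = (inner ℝ (et T k) ν : ℝ) ^ 2 := by
    intro k
    have h0 : et (fun i j k => (inner ℝ (T i j k) ν : ℝ) • ν) k
        = (inner ℝ (et T k) ν : ℝ) • ν := by
      unfold et
      rw [sum_inner, Finset.sum_smul]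
    rw [h0, norm_smul, hν, mul_one, Real.norm_eq_abs, sq_abs]
  have e2 : ∀ i j k, ‖(inner ℝ (T i j k) ν : ℝ) • ν‖ ^ 2 = (inner ℝ (T i j k) ν : ℝ) ^ 2 := by
    intro i j k
    rw [norm_smul, hν, mul_one, Real.norm_eq_abs, sq_abs]
  unfold eqn tqn
  simp only [e1, e2] at h
  exact h

/-- inner products of trace free parts -/
theorem trf (hn : 0 < n) (U W : Fin n → Fin n → EE N) :
    (∑ i, ∑ j, (inner ℝ (U i j - dl i j • ∑ a, U a a) (W i j - dl i j • ∑ a, W a a) : ℝ))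
      = (∑ i, ∑ j, (inner ℝ (U i j) (W i j) : ℝ)) - inner ℝ (∑ a, U a a) (∑ a, W a a) / n := by
  have hn' : (n : ℝ) ≠ 0 := by exact_mod_cast hn.ne'
  have key : ∀ u w : EE N, (∑ a, U a a) = u → (∑ a, W a a) = w →
      (∑ i, ∑ j, (inner ℝ (U i j - dl i j • u) (W i j - dl i j • w) : ℝ))
      = (∑ i, ∑ j, (inner ℝ (U i j) (W i j) : ℝ)) - inner ℝ u w / n := by
    intro u w hu hw
    have h1 : ∀ i j, (inner ℝ (U i j - dl i j • u) (W i j - dl i j • w) : ℝ)
        = inner ℝ (U i j) (W i j) + if i = j then (-(inner ℝ (U i j) w : ℝ) / n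
          - (inner ℝ u (W i j) : ℝ) / n + (inner ℝ u w : ℝ) / n ^ 2) else 0 := by
      intro i j
      rw [inner_sub_left, inner_sub_right, inner_sub_right, real_inner_smul_left,
        real_inner_smul_left, real_inner_smul_right, real_inner_smul_right]
      unfold dl
      split_ifs <;> ring
    have h2 : ∀ i, (∑ j, (inner ℝ (U i j - dl i j • u) (W i j - dl i j • w) : ℝ))
        = (∑ j, (inner ℝ (U i j) (W i j) : ℝ)) + (-(inner ℝ (U i i) w : ℝ) / n
          - (inner ℝ u (W i i) : ℝ) / n + (inner ℝ u w : ℝ) / n ^ 2) := by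
      intro i
      rw [Finset.sum_congr rfl fun j _ => h1 i j, Finset.sum_add_distrib, Finset.sum_ite_eq,
        if_pos (Finset.mem_univ _)]
    have h3 : (∑ i, (inner ℝ (U i i) w : ℝ)) = inner ℝ u w := by rw [← sum_inner, hu]
    have h4 : (∑ i, (inner ℝ u (W i i) : ℝ)) = inner ℝ u w := by rw [← inner_sum, hw]
    rw [Finset.sum_congr rfl fun i _ => h2 i, Finset.sum_add_distrib, Finset.sum_add_distrib,
      Finset.sum_sub_distrib, ← Finset.sum_div, ← Finset.sum_div, Finset.sum_neg_distrib, h3, h4,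
      Finset.sum_const, Finset.card_univ, Fintype.card_fin, nsmul_eq_mul]
    field_simp
    ring
  exact key _ _ rfl rfl

/-- Cauchy and Schwarz -/
theorem cs2 (a b : Fin n → Fin n → EE N) :
    (∑ i, ∑ j, (inner ℝ (a i j) (b i j) : ℝ)) ^ 2
      ≤ (∑ i, ∑ j, ‖a i j‖ ^ 2) * ∑ i, ∑ j, ‖b i j‖ ^ 2 := by
  have h1 : |∑ i, ∑ j, (inner ℝ (a i j) (b i j) : ℝ)| ≤ ∑ i, ∑ j, ‖a i j‖ * ‖b i j‖ := by
    refine (Finset.abs_sum_le_sum_abs _ _).trans (Finset.sum_le_sum fun i _ => ?_)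
    refine (Finset.abs_sum_le_sum_abs _ _).trans (Finset.sum_le_sum fun j _ => ?_)
    exact abs_real_inner_le_norm _ _
  have h2 : (∑ i, ∑ j, ‖a i j‖ * ‖b i j‖) ^ 2
      ≤ (∑ i, ∑ j, ‖a i j‖ ^ 2) * ∑ i, ∑ j, ‖b i j‖ ^ 2 := by
    have h := Finset.sum_mul_sq_le_sq_mul_sq (Finset.univ : Finset (Fin n × Fin n))
      (fun z => ‖a z.1 z.2‖) (fun z => ‖b z.1 z.2‖)
    simpa only [Fintype.sum_prod_type] using h
  rw [← sq_abs]
  exact (pow_le_pow_left₀ (abs_nonneg _) h1 2).trans h2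

theorem thSq (hn : 0 < n) (A : Fin n → Fin n → EE N) :
    ∑ i, ∑ j, ‖A i j - dl i j • Hv A‖ ^ 2 = thA2 A := by
  have h := trf hn A A
  simp only [real_inner_self_eq_norm_sq] at h
  unfold thA2 XX YY Hv
  exact h

theorem crossSq (hn : 0 < n) (A : Fin n → Fin n → EE N) (T : Fin n → Fin n → Fin n → EE N) :
    ∑ k, (gX A T k - gY A T k / n) ^ 2 ≤ 4 * (thA2 A * (tq T - eq2 T / n)) := by
  have h1 : ∀ k, gX A T k - gY A T k / n
      = 2 * ∑ i, ∑ j, (inner ℝ (A i j - dl i j • Hv A) (T i j k - dl i j • et T k) : ℝ) := by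
    intro k
    have h := trf hn A (fun i j => T i j k)
    have h' : (∑ i, ∑ j, (inner ℝ (A i j - dl i j • Hv A) (T i j k - dl i j • et T k) : ℝ))
        = (∑ i, ∑ j, (inner ℝ (A i j) (T i j k) : ℝ)) - inner ℝ (Hv A) (et T k) / n := h
    rw [h']
    unfold gX gY
    ring
  have h3 : ∀ k, ∑ i, ∑ j, ‖T i j k - dl i j • et T k‖ ^ 2
      = (∑ i, ∑ j, ‖T i j k‖ ^ 2) - ‖et T k‖ ^ 2 / n := by
    intro k
    have h := trf hn (fun i j => T i j k) (fun i j => T i j k)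
    simp only [real_inner_self_eq_norm_sq] at h
    exact h
  have h4 : ∑ k, ∑ i, ∑ j, ‖T i j k - dl i j • et T k‖ ^ 2 = tq T - eq2 T / n := by
    rw [Finset.sum_congr rfl fun k _ => h3 k, Finset.sum_sub_distrib, ← Finset.sum_div]
    unfold tq eq2
    congr 1
    rw [Finset.sum_comm]
    refine Finset.sum_congr rfl fun i _ => ?_
    rw [Finset.sum_comm]
  rw [← h4, ← thSq hn A, Finset.mul_sum, Finset.mul_sum]
  refine Finset.sum_le_sum fun k _ => ?_
  rw [h1 k, mul_pow]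
  have := cs2 (fun i j => A i j - dl i j • Hv A) (fun i j => T i j k - dl i j • et T k)
  nlinarith [this]

theorem gYsq (hn : 0 < n) (A : Fin n → Fin n → EE N) (r : ℝ) (L : EE n →ₗᵢ[ℝ] EE N) (x₀ : EE N)
    (hA : ASp n A r L x₀) (T : Fin n → Fin n → Fin n → EE N)
    (hTx : ∀ i j k', (inner ℝ (T i j k') x₀ : ℝ) = 0) (x : ℝ)
    (hx : x = YY A / (n ^ 2 * r) - 1) :
    ∑ k, gY A T k ^ 2 ≤ 4 * (n ^ 2 * r * x) * eq2 T := by
  have hn' : (n : ℝ) ≠ 0 := by exact_mod_cast hn.ne'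
  have hr := hA.r0
  have hHx : (inner ℝ (Hv A) x₀ : ℝ) = -n := by
    unfold Hv
    rw [sum_inner, Finset.sum_congr rfl fun i _ => hA.Ax i i]
    simp
  have hex : ∀ k, (inner ℝ x₀ (et T k) : ℝ) = 0 := by
    intro k
    unfold et
    rw [inner_sum]
    refine Finset.sum_eq_zero fun i _ => ?_
    rw [real_inner_comm]
    exact hTx i i k
  have hw : ‖Hv A + ((n : ℝ) * r) • x₀‖ ^ 2 = n ^ 2 * r * x := by
    rw [norm_add_sq_real, real_inner_smul_right, hHx, norm_smul, mul_pow, hA.nx, Real.norm_eq_abs,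
      sq_abs, hx]
    unfold YY
    field_simp
    ring
  have hk : ∀ k, gY A T k ^ 2 ≤ 4 * (n ^ 2 * r * x) * ‖et T k‖ ^ 2 := by
    intro k
    have e1 : (inner ℝ (Hv A + ((n : ℝ) * r) • x₀) (et T k) : ℝ) = inner ℝ (Hv A) (et T k) := by
      rw [inner_add_left, real_inner_smul_left, hex k, mul_zero, add_zero]
    have e2 : (inner ℝ (Hv A) (et T k) : ℝ) ^ 2 ≤ (n ^ 2 * r * x) * ‖et T k‖ ^ 2 := by
      rw [← e1, ← hw, ← mul_pow, ← sq_abs]
      exact pow_le_pow_left₀ (abs_nonneg _) (abs_real_inner_le_norm _ _) 2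
    unfold gY
    nlinarith [e2]
  unfold eq2
  rw [Finset.mul_sum]
  exact Finset.sum_le_sum fun k _ => hk k

end

/-- the scalar part -/
theorem scal (E l e e1 e2 P1 P2 J1 J2 X θ x g m r tqnv eqnv tqv eq2v tp sY sC : ℝ)
    (hm : 1 < m) (hr : 0 < r) (hg : g = (m - 1) / (m + 2))
    (hl : 0 < l) (hl1 : l ≤ 1) (hE : 0 < E)
    (he1 : e1 ≤ 0) (he2 : 0 ≤ e2) (hP1 : 0 ≤ P1) (hP2 : P2 ≤ 0)
    (hθ : 0 ≤ θ) (hx : 0 ≤ x)
    (hzz : J1 + 2 * X * J2 ≤ 2 * g * E)
    (hgr : P1 / (2 * g) + -e1 * (θ / (2 * g) + 4 * Real.sqrt (x * θ / (2 * g))) ≤ e)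
    (htn : 3 / (m + 2) * eqnv ≤ tqnv) (heqn : 0 ≤ eqnv)
    (ht2 : 3 / (m + 2) * eq2v ≤ tqv) (heq2 : 0 ≤ eq2v)
    (htp : 0 ≤ tp) (hsY : 0 ≤ sY)
    (hC : sC ^ 2 ≤ (4 * (m ^ 2 * r * x) * eq2v) * (4 * ((m * r * θ) * (tqv - eq2v / m)))) :
    -tp - E / m * (tqnv - eqnv / m)
      - l * e * ((tqv - eq2v / m) / m)
      - l * e1 * θ * (eq2v / m ^ 2)
      - l * e2 * θ * (sY / (2 * r * m ^ 4))
      - l * e1 * (sC / (r * m ^ 3))
      + l * J1 * (eqnv / m ^ 2) + l * J2 * (2 * X * eqnv / m ^ 2)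
      + l * P1 * (eq2v / m ^ 2)
      + l * P2 * (sY / (2 * r * m ^ 4)) ≤ 0 := by
  have hm0 : 0 < m := by linarith
  have hg0 : 0 < g := by rw [hg]; apply div_pos <;> linarith
  -- G and g'
  set G := eq2v / m ^ 2 with hG
  set g' := (tqv - eq2v / m) / m with hg'
  have hG0 : 0 ≤ G := by positivity
  have hgG : 2 * g * G ≤ g' := by
    have h1 : (3 / (m + 2) - 1 / m) * eq2v ≤ tqv - eq2v / m := by
      have : (3 / (m + 2) - 1 / m) * eq2v = 3 / (m + 2) * eq2v - eq2v / m := by ring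
      rw [this]; linarith
    have h2 : 2 * g * G = (3 / (m + 2) - 1 / m) * eq2v / m := by
      rw [hg, hG]
      have : m + 2 ≠ 0 := by linarith
      field_simp
      ring
    rw [h2, hg']
    exact div_le_div_of_nonneg_right h1 hm0.le
  have hg'0 : 0 ≤ g' := le_trans (by positivity) hgG
  have hGle : G ≤ g' / (2 * g) := by
    rw [le_div_iff₀ (by positivity)]
    linarith
  -- (2)
  have hA2 : -(E / m * (tqnv - eqnv / m)) + l * J1 * (eqnv / m ^ 2)
      + l * J2 * (2 * X * eqnv / m ^ 2) ≤ 0 := by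
    have h1 : (2 * g / m) * eqnv ≤ tqnv - eqnv / m := by
      have h2 : 2 * g / m * eqnv = 3 / (m + 2) * eqnv - eqnv / m := by
        rw [hg]
        have : m + 2 ≠ 0 := by linarith
        field_simp
        ring
      rw [h2]; linarith
    have h3 : E / m * ((2 * g / m) * eqnv) ≤ E / m * (tqnv - eqnv / m) :=
      mul_le_mul_of_nonneg_left h1 (by positivity)
    have h4 : l * J1 * (eqnv / m ^ 2) + l * J2 * (2 * X * eqnv / m ^ 2)
        = (eqnv / m ^ 2) * (l * (J1 + 2 * X * J2)) := by ring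
    have h5 : l * (J1 + 2 * X * J2) ≤ 2 * g * E := by
      have h6 : l * (J1 + 2 * X * J2) ≤ l * (2 * g * E) := mul_le_mul_of_nonneg_left hzz hl.le
      have h7 : l * (2 * g * E) ≤ 1 * (2 * g * E) :=
        mul_le_mul_of_nonneg_right hl1 (by positivity)
      linarith
    have h8 : (eqnv / m ^ 2) * (l * (J1 + 2 * X * J2)) ≤ (eqnv / m ^ 2) * (2 * g * E) :=
      mul_le_mul_of_nonneg_left h5 (by positivity)
    have h9 : E / m * ((2 * g / m) * eqnv) = (eqnv / m ^ 2) * (2 * g * E) := by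
      field_simp
    linarith
  -- (3)
  have hsY' : 0 ≤ sY / (2 * r * m ^ 4) := by positivity
  have hA3 : 0 ≤ l * e2 * θ * (sY / (2 * r * m ^ 4)) := by positivity
  have hA3' : l * P2 * (sY / (2 * r * m ^ 4)) ≤ 0 := by
    have : 0 ≤ l * (-P2) * (sY / (2 * r * m ^ 4)) :=
      mul_nonneg (mul_nonneg hl.le (by linarith)) hsY'
    linarith
  -- (4)
  set s := Real.sqrt (x * θ / (2 * g)) with hs
  have hs0 : 0 ≤ s := Real.sqrt_nonneg _
  have hs2 : s ^ 2 = x * θ / (2 * g) := Real.sq_sqrt (by positivity)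
  have hCa : |sC| ≤ 4 * m ^ 3 * r * g' * s := by
    have h0 : 0 ≤ 4 * m ^ 3 * r * g' * s := by positivity
    refine abs_le_of_sq_le_sq ?_ h0
    have h1 : (4 * (m ^ 2 * r * x) * eq2v) * (4 * ((m * r * θ) * (tqv - eq2v / m)))
        = 16 * m ^ 6 * r ^ 2 * (x * θ) * g' * G := by
      rw [hG, hg']
      field_simp
      ring
    have h2 : 16 * m ^ 6 * r ^ 2 * (x * θ) * g' * G
        ≤ 16 * m ^ 6 * r ^ 2 * (x * θ) * g' * (g' / (2 * g)) :=
      mul_le_mul_of_nonneg_left hGle (by positivity)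
    have h3 : (4 * m ^ 3 * r * g' * s) ^ 2 = 16 * m ^ 6 * r ^ 2 * (x * θ) * g' * (g' / (2 * g)) := by
      have : (4 * m ^ 3 * r * g' * s) ^ 2 = 16 * m ^ 6 * r ^ 2 * g' ^ 2 * s ^ 2 := by ring
      rw [this, hs2]
      ring
    rw [h3]
    linarith
  have hC2 : -e1 * (sC / (r * m ^ 3)) ≤ -e1 * (4 * g' * s) := by
    refine mul_le_mul_of_nonneg_left ?_ (by linarith)
    rw [div_le_iff₀ (by positivity)]
    have := le_abs_self sC
    calc sC ≤ 4 * m ^ 3 * r * g' * s := le_trans this hCa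
      _ = 4 * g' * s * (r * m ^ 3) := by ring
  have hA4 : -e * g' + -e1 * θ * G + P1 * G + -e1 * (sC / (r * m ^ 3)) ≤ 0 := by
    have h1 : -e1 * θ * G ≤ -e1 * θ * (g' / (2 * g)) :=
      mul_le_mul_of_nonneg_left hGle (mul_nonneg (by linarith) hθ)
    have h2 : P1 * G ≤ P1 * (g' / (2 * g)) := mul_le_mul_of_nonneg_left hGle hP1
    have h3 : g' * (P1 / (2 * g) + -e1 * (θ / (2 * g) + 4 * s)) ≤ g' * e :=
      mul_le_mul_of_nonneg_left hgr hg'0
    have h4 : g' * (P1 / (2 * g) + -e1 * (θ / (2 * g) + 4 * s))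
        = P1 * (g' / (2 * g)) + -e1 * θ * (g' / (2 * g)) + -e1 * (4 * g' * s) := by ring
    linarith
  have hA4' : l * (-e * g' + -e1 * θ * G + P1 * G + -e1 * (sC / (r * m ^ 3))) ≤ 0 :=
    mul_nonpos_of_nonneg_of_nonpos hl.le hA4
  have hfin : -tp - E / m * (tqnv - eqnv / m)
      - l * e * g' - l * e1 * θ * G
      - l * e2 * θ * (sY / (2 * r * m ^ 4))
      - l * e1 * (sC / (r * m ^ 3))
      + l * J1 * (eqnv / m ^ 2) + l * J2 * (2 * X * eqnv / m ^ 2)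
      + l * P1 * G
      + l * P2 * (sY / (2 * r * m ^ 4))
      = -tp + (-(E / m * (tqnv - eqnv / m)) + l * J1 * (eqnv / m ^ 2)
          + l * J2 * (2 * X * eqnv / m ^ 2))
        - l * e2 * θ * (sY / (2 * r * m ^ 4)) + l * P2 * (sY / (2 * r * m ^ 4))
        + l * (-e * g' + -e1 * θ * G + P1 * G + -e1 * (sC / (r * m ^ 3))) := by ring
  rw [hfin]
  linarith

theorem hGRA (hT3 : StT3) : StGRA := by
  intro n N k p hp A r L x₀ hA T hT hTx P Q ν hν l x θ X h hl hl1 hx hθ hx0 hθ0 hreg hh hX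
  have hn16 := hp.n16
  have hn : 0 < n := by omega
  have hm : (1 : ℝ) < n := by
    have : (16 : ℝ) ≤ n := by exact_mod_cast hn16
    linarith
  have hm0 : (0 : ℝ) < n := by linarith
  have hr := hA.r0
  have hX0 : 0 ≤ X := by rw [hX]; positivity
  have hth : thA2 A = n * r * θ := by
    rw [hθ]
    field_simp
  have hthA : 0 ≤ thA2 A := by rw [hth]; positivity
  have h1 := crossSq hn A T
  have h2 := gYsq hn A r L x₀ hA T hTx x hx
  have hC : (∑ k', gY A T k' * (gX A T k' - gY A T k' / n)) ^ 2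
      ≤ (4 * ((n : ℝ) ^ 2 * r * x) * eq2 T) * (4 * ((n * r * θ) * (tq T - eq2 T / n))) := by
    have h3 := Finset.sum_mul_sq_le_sq_mul_sq (Finset.univ : Finset (Fin n))
      (fun k' => gY A T k') (fun k' => gX A T k' - gY A T k' / n)
    refine h3.trans ?_
    rw [← hth]
    refine mul_le_mul h2 h1 (Finset.sum_nonneg fun _ _ => sq_nonneg _) ?_
    have : 0 ≤ eq2 T := Finset.sum_nonneg fun _ _ => sq_nonneg _
    positivity
  refine scal p.E l (p.e x) (p.e1 x) (p.e2 x) (p.P1 x) (p.P2 x) (p.J1 X) (p.J2 X) X θ x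
    (((n : ℝ) - 1) / (n + 2)) n r (tqn T ν) (eqn T ν) (tq T) (eq2 T) (tpq T P Q ν) _ _
    hm hr rfl hl hl1 hp.E0 (hp.e10 x hx0) (hp.e20 x hx0) (hp.P10 x hx0) (hp.P20 x hx0)
    hθ0 hx0 (hp.zz X hX0) (hp.gr x θ _ hx0 hθ0 rfl hreg)
    (t3s hT3 T hT ν hν) (Finset.sum_nonneg fun _ _ => sq_nonneg _) (hT3 n N T hT)
    (Finset.sum_nonneg fun _ _ => sq_nonneg _) (Finset.sum_nonneg fun _ _ => sq_nonneg _)
    (Finset.sum_nonneg fun _ _ => sq_nonneg _) hC

end Helper48.HG
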